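import Pool.Agent.Y34.HB.Stm2

set_option autoImplicit false

/-!
Orbits of geometric actions on CAT(0) spaces grow at most exponentially (job HP-GROW).
-/

universe u v

open Metric Set Filter Topology

namespace Pool.Agent.Y454.HB

open Pool.Agent.Y34.HB

section
variable {X : Type u} [MetricSpace X] {G : Type v} [Group G] [MulAction G X]

/-- the elements which move `x0` by at most `R` -/
def NN (G : Type v) [Group G] [MulAction G X] (x0 : X) (R : ℝ) : Set G :=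
  {γ : G | dist (γ • x0) x0 ≤ R}

theorem NN_fin (h : Geo X G) (x0 : X) (R : ℝ) : (NN G x0 R).Finite := by
  have := h.proper
  have := h.disc
  have h1 := ProperlyDiscontinuousSMul.finite_disjoint_inter_image (Γ := G)
    (isCompact_singleton (x := x0)) (isCompact_closedBall x0 R)
  refine h1.subset fun γ hγ => ?_
  exact ⟨γ • x0, ⟨x0, rfl, rfl⟩, hγ⟩

theorem NN_mono (x0 : X) {R R' : ℝ} (h : R ≤ R') : NN G x0 R ⊆ NN G x0 R' :=
  fun _ hγ => le_trans hγ h

theorem cover (h : Geo X G) (x0 : X) : ∃ r : ℝ, 0 ≤ r ∧ ∀ x : X, ∃ g : G, dist (g • x0) x ≤ r := by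
  have := h.isom
  obtain ⟨K, hK, hcov⟩ := h.cc
  obtain ⟨r, hr⟩ := hK.isBounded.subset_closedBall x0
  refine ⟨max r 0, le_max_right _ _, fun x => ?_⟩
  obtain ⟨g, hg⟩ := hcov x
  refine ⟨g⁻¹, ?_⟩
  have h1 : dist (g • x) x0 ≤ r := hr hg
  have h2 : dist (g⁻¹ • x0) x = dist x0 (g • x) := by
    rw [← dist_smul g, smul_inv_smul]
  rw [h2, dist_comm]
  exact h1.trans (le_max_left _ _)

theorem doubling (h : Geo X G) (x0 : X) {r : ℝ} (hr : ∀ x : X, ∃ g : G, dist (g • x0) x ≤ r)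
    {R : ℝ} (hR : 0 ≤ R) :
    (NN G x0 (2 * R)).ncard ≤ (NN G x0 (R + r)).ncard ^ 2 := by
  have := h.isom
  have key : ∀ γ : G, γ ∈ NN G x0 (2 * R) → ∃ p : G × G, p ∈ NN G x0 (R + r) ×ˢ NN G x0 (R + r) ∧
      p.1 * p.2 = γ := by
    intro γ hγ
    obtain ⟨m, hm⟩ := h.cn x0 (γ • x0)
    have hd : dist (γ • x0) x0 ≤ 2 * R := hγ
    have hd0 : 0 ≤ dist x0 (γ • x0) := dist_nonneg
    rw [dist_comm] at hd
    have h1 : dist x0 m ≤ R := by
      have h2 := hm x0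
      rw [dist_self] at h2
      apply le_of_sq_le_sq _ hR
      nlinarith
    have h2 : dist (γ • x0) m ≤ R := by
      have h2 := hm (γ • x0)
      rw [dist_self, dist_comm (γ • x0) x0] at h2
      apply le_of_sq_le_sq _ hR
      nlinarith
    obtain ⟨g, hg⟩ := hr m
    refine ⟨(g, g⁻¹ * γ), ⟨?_, ?_⟩, by simp⟩
    · show dist (g • x0) x0 ≤ R + r
      have h3 := dist_triangle (g • x0) m x0
      rw [dist_comm m x0] at h3
      linarith
    · show dist ((g⁻¹ * γ) • x0) x0 ≤ R + r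
      have h3 : dist ((g⁻¹ * γ) • x0) x0 = dist (γ • x0) (g • x0) := by
        rw [← dist_smul g, mul_smul, smul_inv_smul]
      rw [h3]
      have h4 := dist_triangle (γ • x0) m (g • x0)
      rw [dist_comm m (g • x0)] at h4
      linarith
  have hsub : NN G x0 (2 * R) ⊆ (fun p : G × G => p.1 * p.2) '' (NN G x0 (R + r) ×ˢ NN G x0 (R + r)) :=
    fun γ hγ => key γ hγ
  have hfin : (NN G x0 (R + r) ×ˢ NN G x0 (R + r)).Finite := (NN_fin h x0 _).prod (NN_fin h x0 _)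
  calc (NN G x0 (2 * R)).ncard ≤ ((fun p : G × G => p.1 * p.2) ''
        (NN G x0 (R + r) ×ˢ NN G x0 (R + r))).ncard := Set.ncard_le_ncard hsub (hfin.image _)
    _ ≤ (NN G x0 (R + r) ×ˢ NN G x0 (R + r)).ncard := Set.ncard_image_le hfin
    _ = (NN G x0 (R + r)).ncard ^ 2 := by rw [Set.ncard_prod, sq]

theorem iter (h : Geo X G) (x0 : X) {r : ℝ} (hr0 : 0 ≤ r)
    (hr : ∀ x : X, ∃ g : G, dist (g • x0) x ≤ r) (k : ℕ) :
    (NN G x0 (2 * r + 2 ^ k)).ncard ≤ (NN G x0 (2 * r + 1)).ncard ^ (2 ^ k) := by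
  induction k with
  | zero => simp
  | succ k ih =>
    have h1 := doubling h x0 hr (R := r + 2 ^ k) (by positivity)
    have e1 : 2 * (r + 2 ^ k) = 2 * r + (2 : ℝ) ^ (k + 1) := by ring
    have e2 : r + 2 ^ k + r = 2 * r + (2 : ℝ) ^ k := by ring
    rw [e1, e2] at h1
    refine h1.trans ?_
    calc (NN G x0 (2 * r + 2 ^ k)).ncard ^ 2 ≤ ((NN G x0 (2 * r + 1)).ncard ^ (2 ^ k)) ^ 2 :=
          Nat.pow_le_pow_left ih 2
      _ = (NN G x0 (2 * r + 1)).ncard ^ (2 ^ (k + 1)) := by rw [← pow_mul, pow_succ]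

end

/-- HP-GROW -/
theorem t : S_GROW.{u, v} := by
  intro X _ G _ _ h x0
  obtain ⟨r, hr0, hr⟩ := cover (G := G) h x0
  set N : ℕ := (NN G x0 (2 * r + 1)).ncard with hN
  have hN1 : 1 ≤ N := by
    rw [hN, Nat.one_le_iff_ne_zero, Ne, Set.ncard_eq_zero (NN_fin h x0 _), ← Ne,
      ← Set.nonempty_iff_ne_empty]
    refine ⟨1, ?_⟩
    show dist ((1 : G) • x0) x0 ≤ 2 * r + 1
    rw [one_smul, dist_self]
    positivity
  have hNr : (1 : ℝ) ≤ N := by exact_mod_cast hN1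
  have hlog : 0 ≤ Real.log N := Real.log_nonneg hNr
  refine ⟨2 * Real.log N + 1, by positivity, fun R hR => ⟨NN_fin h x0 R, ?_⟩⟩
  obtain ⟨k, hk1, hk2⟩ := exists_nat_pow_near (x := R + 1) (y := (2 : ℝ)) (by linarith) one_lt_two
  have h1 : (NN G x0 R).ncard ≤ N ^ (2 ^ (k + 1)) := by
    refine (Set.ncard_le_ncard (NN_mono x0 ?_) (NN_fin h x0 _)).trans (iter h x0 hr0 hr (k + 1))
    linarith
  have h2 : ((NN G x0 R).ncard : ℝ) ≤ (N : ℝ) ^ (2 ^ (k + 1)) := by exact_mod_cast h1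
  refine h2.trans ?_
  have h3 : (N : ℝ) = Real.exp (Real.log N) := (Real.exp_log (by linarith)).symm
  rw [h3, ← Real.exp_nat_mul, ← h3]
  apply Real.exp_le_exp.2
  push_cast
  have h4 : (2 : ℝ) ^ (k + 1) ≤ 2 * (R + 1) := by
    rw [pow_succ]
    linarith
  calc (2 : ℝ) ^ (k + 1) * Real.log N ≤ 2 * (R + 1) * Real.log N := by gcongr
    _ = 2 * Real.log N * (R + 1) := by ring
    _ ≤ (2 * Real.log N + 1) * (R + 1) := by
        have : 0 ≤ R + 1 := by linarith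
        gcongr
        linarith

end Pool.Agent.Y454.HB
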